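import Pool.Agent.H30.Iep

open Pool.Agent.H30.Iep

theorem Pool.Agent.Results.MP_400b40_lc.AboveGL.result :
    ∃ L : Set Fm, Normal L ∧ lob ∈ L ∧ DecL L ∧ ¬ DecIEP L :=
  ⟨L, normal, lob_mem, decL, not_decIEP⟩
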